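import Pool.Agent.N112.WM.Stm

/-! # Parseval on a coset of a subgroup of the dual group -/

set_option autoImplicit false

namespace Pool.Agent.N342.WM

open Finset Pool.Agent.N112.WM

universe u

variable {H : Type u} [AddCommGroup H]

/-- the evaluation at `h` as a character of `V` -/
noncomputable def evc (V : AddSubgroup (AddChar H ℂ)) (h : H) : AddChar V ℂ where
  toFun := fun χ => (χ : AddChar H ℂ) h
  map_zero_eq_one' := by simp
  map_add_eq_mul' := by
    intro a b
    simp [AddChar.add_apply]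

lemma evc_apply (V : AddSubgroup (AddChar H ℂ)) (h : H) (χ : V) :
    evc V h χ = (χ : AddChar H ℂ) h := rfl

lemma evc_zero (V : AddSubgroup (AddChar H ℂ)) (h : H) : evc V h = 0 ↔ h ∈ perp V := by
  rw [mem_perp]
  constructor
  · intro h1 χ hχ
    have h2 := DFunLike.congr_fun h1 ⟨χ, hχ⟩
    rw [evc_apply] at h2
    simpa using h2
  · intro h1
    ext χ
    rw [evc_apply, h1 χ χ.2]
    simp

lemma sum_V [Finite H] (V : AddSubgroup (AddChar H ℂ)) [Fintype V] (h : H) [Decidable (h ∈ perp V)] :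
    ∑ χ : V, (χ : AddChar H ℂ) h = if h ∈ perp V then (Fintype.card V : ℂ) else 0 := by
  classical
  have h1 := AddChar.sum_eq_ite (evc V h)
  simp only [evc_apply, evc_zero] at h1
  rw [h1]

lemma sq_ft [Finite H] (D : Finset H) (χ : AddChar H ℂ) :
    ((‖ft D χ‖ ^ 2 : ℝ) : ℂ) = ∑ x ∈ D, ∑ y ∈ D, χ (x - y) := by
  unfold ft
  rw [Complex.ofReal_pow, ← Complex.mul_conj', map_sum, sum_mul_sum]
  refine sum_congr rfl fun x _ => sum_congr rfl fun y _ => ?_
  rw [sub_eq_add_neg, AddChar.map_add_eq_mul, AddChar.map_neg_eq_conj]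

theorem coset : StmCoset.{u} := by
  classical
  intro H _ _ _ V
  cases nonempty_fintype H
  have : Fintype V := Fintype.ofFinite V
  have : Fintype (perp V) := Fintype.ofFinite _
  rw [Nat.card_eq_fintype_card, Nat.card_eq_fintype_card, Nat.card_eq_fintype_card]
  constructor
  · have h1 : ∑ h : H, ∑ χ : V, (χ : AddChar H ℂ) h = (Fintype.card V : ℂ) * Fintype.card (perp V) := by
      simp_rw [sum_V]
      rw [sum_ite, sum_const_zero, add_zero, sum_const, nsmul_eq_mul, mul_comm]
      congr 2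
      rw [Fintype.card_subtype]
    have h2 : ∑ h : H, ∑ χ : V, (χ : AddChar H ℂ) h = (Fintype.card H : ℂ) := by
      rw [sum_comm]
      simp_rw [AddChar.sum_eq_ite]
      rw [sum_eq_single (0 : V)]
      · simp
      · intro χ _ hχ
        rw [if_neg]
        intro h3
        exact hχ (Subtype.ext h3)
      · intro h3
        exact absurd (mem_univ _) h3
    rw [h1] at h2
    exact_mod_cast h2
  · intro D χ₀ Q hD hQ
    -- the sets of neighbours
    obtain ⟨x₀, hx₀, hmax⟩ := exists_max_image D (fun x => (D.filter fun y => x - y ∈ perp V).card) hD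
    refine ⟨D.filter fun y => x₀ - y ∈ perp V, filter_subset _ _, ⟨x₀, ?_⟩, ?_, ?_⟩
    · rw [mem_filter, sub_self]
      exact ⟨hx₀, zero_mem _⟩
    · intro x hx y hy
      rw [mem_filter] at hx hy
      have : x - y = (x₀ - y) - (x₀ - x) := by abel
      rw [this]
      exact sub_mem hy.2 hx.2
    · have h1 : ∑ χ ∈ Q, ‖ft D χ‖ ^ 2 ≤ ∑ ψ : V, ‖ft D (χ₀ + ψ)‖ ^ 2 := by
        have h2 : ∑ χ ∈ Q, ‖ft D χ‖ ^ 2 = ∑ χ : Q, ‖ft D (χ : AddChar H ℂ)‖ ^ 2 :=
          (sum_coe_sort Q fun χ => ‖ft D χ‖ ^ 2).symm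
        rw [h2]
        have h3 : ∀ χ : Q, ‖ft D (χ : AddChar H ℂ)‖ ^ 2 =
            ‖ft D (χ₀ + ((⟨(χ : AddChar H ℂ) - χ₀, hQ χ χ.2⟩ : V) : AddChar H ℂ))‖ ^ 2 := by
          intro χ
          congr 3
          simp
        rw [sum_congr rfl fun χ _ => h3 χ]
        have h4 : Function.Injective fun χ : Q => (⟨(χ : AddChar H ℂ) - χ₀, hQ χ χ.2⟩ : V) := by
          intro χ χ' h5
          have h6 := congrArg Subtype.val h5
          simp only [sub_left_inj] at h6
          exact Subtype.ext h6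
        rw [← sum_image (s := univ) (g := fun χ : Q => (⟨(χ : AddChar H ℂ) - χ₀, hQ χ χ.2⟩ : V))
          (f := fun ψ : V => ‖ft D (χ₀ + ψ)‖ ^ 2) (fun a _ b _ hab => h4 hab)]
        exact sum_le_sum_of_subset_of_nonneg (subset_univ _) fun _ _ _ => by positivity
      refine h1.trans ?_
      have h2 : ((∑ ψ : V, ‖ft D (χ₀ + ψ)‖ ^ 2 : ℝ) : ℂ) = ∑ x ∈ D, ∑ y ∈ D, χ₀ (x - y) *
          (if x - y ∈ perp V then (Fintype.card V : ℂ) else 0) := by
        rw [Complex.ofReal_sum]
        simp_rw [sq_ft]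
        rw [sum_comm]
        refine sum_congr rfl fun x _ => ?_
        rw [sum_comm]
        refine sum_congr rfl fun y _ => ?_
        rw [← sum_V, mul_sum]
        refine sum_congr rfl fun ψ _ => ?_
        rw [AddChar.add_apply]
      have h3 : ∑ ψ : V, ‖ft D (χ₀ + ψ)‖ ^ 2 ≤ ∑ x ∈ D, ∑ y ∈ D,
          (if x - y ∈ perp V then (Fintype.card V : ℝ) else 0) := by
        have h4 : ∑ ψ : V, ‖ft D (χ₀ + ψ)‖ ^ 2 =
            ‖((∑ ψ : V, ‖ft D (χ₀ + ψ)‖ ^ 2 : ℝ) : ℂ)‖ := by
          rw [Complex.norm_real, Real.norm_of_nonneg]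
          exact sum_nonneg fun _ _ => by positivity
        rw [h4, h2]
        refine (norm_sum_le _ _).trans (sum_le_sum fun x _ => ?_)
        refine (norm_sum_le _ _).trans (sum_le_sum fun y _ => ?_)
        rw [norm_mul, AddChar.norm_apply, one_mul]
        split_ifs <;> simp
      refine h3.trans ?_
      have h5 : ∀ x ∈ D, ∑ y ∈ D, (if x - y ∈ perp V then (Fintype.card V : ℝ) else 0) ≤
          Fintype.card V * ((D.filter fun y => x₀ - y ∈ perp V).card : ℝ) := by
        intro x hx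
        rw [sum_ite, sum_const_zero, add_zero, sum_const, nsmul_eq_mul, mul_comm]
        refine mul_le_mul_of_nonneg_left ?_ (Nat.cast_nonneg _)
        exact_mod_cast hmax x hx
      refine (sum_le_sum h5).trans (le_of_eq ?_)
      rw [sum_const, nsmul_eq_mul]
      ring

end Pool.Agent.N342.WM
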